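import Pool.Agent.J6H36.BSV.Defs3

/-!
# Module BSV-GAL: a finite-dimensional quotient of `H(Ω)` is generated by classes over a finite Galois
extension
-/

set_option autoImplicit false

universe u w

namespace Pool.Agent.J6H63.BSV

open Pool.Agent.J6H36.BSV IntermediateField

/-- A finite set of elements is contained in a finite purely inseparable extension of a finite Galois
extension. -/
theorem gal_field (E Ω : Type u) [Field E] [Field Ω] [Algebra E Ω] [IsAlgClosed Ω]
    [Algebra.IsAlgebraic E Ω] (S : Finset Ω) :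
    ∃ (M : IntermediateField E Ω) (_ : FiniteDimensional E M) (_ : IsGalois E M)
      (L : IntermediateField M Ω) (_ : FiniteDimensional M L) (_ : IsPurelyInseparable M L),
      ∀ z ∈ S, z ∈ L := by
  classical
  obtain ⟨q, hq⟩ := ExpChar.exists E
  have hN : Normal E Ω := normal_iff.2 fun x =>
    ⟨Algebra.IsIntegral.isIntegral x, IsAlgClosed.splits _⟩
  have hqs : ExpChar (separableClosure E Ω) q :=
    expChar_of_injective_algebraMap (algebraMap E (separableClosure E Ω)).injective q
  have h1 : ∀ z : Ω, ∃ m : ℕ, z ^ q ^ m ∈ separableClosure E Ω := by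
    intro z
    obtain ⟨m, y, hy⟩ := IsPurelyInseparable.pow_mem (separableClosure E Ω) q z
    refine ⟨m, ?_⟩
    rw [← hy]
    exact y.2
  choose m hm using h1
  let S' : Finset Ω := S.image fun z => z ^ q ^ m z
  have hfin : FiniteDimensional E (adjoin E (S' : Set Ω)) :=
    finiteDimensional_adjoin fun x _ => Algebra.IsIntegral.isIntegral x
  have hle : adjoin E (S' : Set Ω) ≤ separableClosure E Ω := by
    rw [adjoin_le_iff]
    intro x hx
    obtain ⟨z, -, rfl⟩ := Finset.mem_image.1 (Finset.mem_coe.1 hx)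
    exact hm z
  let M : IntermediateField E Ω := normalClosure E (adjoin E (S' : Set Ω)) Ω
  have hMfin : FiniteDimensional E M := normalClosure.is_finiteDimensional E _ Ω
  have hMnor : Normal E M := normalClosure.normal E _ Ω
  have hMle : M ≤ separableClosure E Ω := normalClosure_le_iff_of_normal.2 hle
  have hMsep : Algebra.IsSeparable E M := (le_separableClosure_iff E Ω M).1 hMle
  have hMgal : IsGalois E M := isGalois_iff.2 ⟨hMsep, hMnor⟩
  have hqM : ExpChar M q := expChar_of_injective_algebraMap (algebraMap E M).injective q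
  have hMem : adjoin E (S' : Set Ω) ≤ M := le_normalClosure _
  refine ⟨M, hMfin, hMgal, adjoin M (S : Set Ω), ?_, ?_, fun z hz => subset_adjoin _ _ hz⟩
  · exact finiteDimensional_adjoin fun x _ => IsIntegral.tower_top (Algebra.IsIntegral.isIntegral (R := E) x)
  · rw [isPurelyInseparable_adjoin_iff_pow_mem M Ω q]
    intro z hz
    refine ⟨m z, ⟨z ^ q ^ m z, hMem (subset_adjoin _ _ ?_)⟩, rfl⟩
    exact Finset.mem_coe.2 (Finset.mem_image_of_mem _ (Finset.mem_coe.1 hz))

theorem t_GAL : S_GAL.{u} := by
  intro T i n E Ω _ _ _ _ _ R _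
  classical
  obtain ⟨s, hs⟩ := (inferInstance : Module.Finite ℚ (T.H i n Ω ⧸ R)).fg_top
  -- lifts of the generators
  have h1 : ∀ c : T.H i n Ω ⧸ R, ∃ x : T.H i n Ω, R.mkQ x = c := R.mkQ_surjective
  choose lf hlf using h1
  have h2 := fun x : T.H i n Ω => T.lift i n Ω x
  choose t y hy using h2
  obtain ⟨M, hM1, hM2, L, hL1, hL2, hL⟩ := gal_field E Ω (s.biUnion fun c => t (lf c))
  refine ⟨M, hM1, hM2, ?_⟩
  have key : ∀ c ∈ s, ∃ y' : T.H i n M, T.map i n (algebraMap M Ω) y' = lf c := by
    intro c hc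
    have hle : ∀ z : Subring.closure (t (lf c) : Set Ω), (z : Ω) ∈ L := by
      intro z
      have : Subring.closure (t (lf c) : Set Ω) ≤ L.toSubfield.toSubring := by
        rw [Subring.closure_le]
        intro w hw
        exact hL w (Finset.mem_biUnion.2 ⟨c, hc, Finset.mem_coe.1 hw⟩)
      exact this z.2
    let f : Subring.closure (t (lf c) : Set Ω) →+* L :=
      (Subring.closure (t (lf c) : Set Ω)).subtype.codRestrict L.toSubfield.toSubring hle
    obtain ⟨y', hy'⟩ := T.insep i n M L (T.map i n f (y (lf c)))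
    refine ⟨y', ?_⟩
    have e1 : algebraMap M Ω = (algebraMap L Ω).comp (algebraMap M L) := rfl
    rw [e1, T.map_comp, hy', ← T.map_comp]
    have e2 : (algebraMap L Ω).comp f = (Subring.closure (t (lf c) : Set Ω)).subtype := rfl
    rw [e2]
    exact hy (lf c)
  have htop : LinearMap.range (R.mkQ ∘ₗ T.map i n (algebraMap M Ω)) = ⊤ := by
    rw [eq_top_iff, ← hs, Submodule.span_le]
    intro c hc
    obtain ⟨y', hy'⟩ := key c hc
    refine ⟨y', ?_⟩
    rw [LinearMap.comp_apply, hy', hlf]
  intro x
  have hx : R.mkQ x ∈ LinearMap.range (R.mkQ ∘ₗ T.map i n (algebraMap M Ω)) := by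
    rw [htop]
    trivial
  obtain ⟨y', hy'⟩ := hx
  refine ⟨y', ?_⟩
  rw [LinearMap.comp_apply] at hy'
  exact (Submodule.Quotient.eq R).1 hy'.symm

end Pool.Agent.J6H63.BSV
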